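import Pool.Agent.helper86.OF.SpecM

/-! Project of:, module MKO (helper70). -/

open scoped BigOperators

namespace Pool.Agent.OF

noncomputable section

open Classical

theorem MKO_dg {V : Type} [Fintype V] (C R : SimpleGraph V) (hR : R ≤ C) (x : V) :
    dg C x = dg (C \ R) x + dg R x := by
  unfold dg dgs
  rw [← Finset.card_union_of_disjoint]
  · congr 1
    ext w
    simp only [Finset.mem_filter, Finset.mem_union, Finset.mem_univ, true_and, SimpleGraph.sdiff_adj]
    constructor
    · intro h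
      by_cases h1 : R.Adj x w
      · exact Or.inr h1
      · exact Or.inl ⟨h, h1⟩
    · rintro (h | h)
      · exact h.1
      · exact hR h
  · rw [Finset.disjoint_left]
    intro w h1 h2
    simp only [Finset.mem_filter, Finset.mem_univ, true_and, SimpleGraph.sdiff_adj] at h1 h2
    exact h1.2 h2

theorem MKO_dg0 {V : Type} [Fintype V] (G : SimpleGraph V) (x : V) (h : ∀ w, ¬ G.Adj x w) :
    dg G x = 0 := by
  unfold dg dgs
  rw [Finset.card_eq_zero, Finset.filter_eq_empty_iff]
  exact fun w _ => h w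

theorem MKO_has {V : Type} (G : SimpleGraph V) (c : Sym2 V → ℕ) (π : Equiv.Perm ℕ) (x : V) (i : ℕ) :
    has G (fun e => π (c e)) x i ↔ has G c x (π.symm i) := by
  unfold has
  constructor
  · rintro ⟨w, h1, h2⟩
    exact ⟨w, h1, by rw [← h2]; simp⟩
  · rintro ⟨w, h1, h2⟩
    exact ⟨w, h1, by show π (c s(x, w)) = i; rw [h2]; simp⟩

/-- MKO. The classes of the middle phase. -/
theorem MKO (hKON : KON_stmt) (hBAV : BAV_stmt) (hSCN : SCN_stmt) (hALN : ALN_stmt) : MKO_stmt := by
  intro η hη
  refine ⟨η / 16, by positivity, fun U => ?_⟩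
  obtain ⟨N1, hN1⟩ := hALN U η hη
  obtain ⟨N2, hN2⟩ := exists_nat_ge (4 / η)
  refine ⟨max N1 (N2 + 1), ?_⟩
  intro V _ C R A X q H hN hC hRC hq hqN hH hd1 hd2
  have hN1' : N1 ≤ Fintype.card V := (le_max_left _ _).trans hN
  have hN2' : (N2 : ℝ) + 1 ≤ Fintype.card V := by exact_mod_cast (le_max_right _ _).trans hN
  have hNpos : (0 : ℝ) < Fintype.card V := by
    have : (0 : ℝ) ≤ N2 := Nat.cast_nonneg _
    linarith
  have h2 : 2 ≤ η / 2 * Fintype.card V := by
    have h3 : 4 / η ≤ Fintype.card V := by linarith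
    rw [div_le_iff₀ hη] at h3
    linarith
  have hqpos : (0 : ℝ) < q := by
    have : (0 : ℝ) < Fintype.card V / 8 := by positivity
    linarith
  have hdeg : ∀ x ∈ X, dg (C \ R) x ≤ q := by
    intro x hx
    have h1 := MKO_dg C R hRC x
    have h3 := hd1 x hx
    omega
  have hdeg' : ∀ x, dg (C \ R) x ≤ q := by
    intro x
    by_cases hx : x ∈ X
    · exact hdeg x hx
    · have h1 : dg (C \ R) x = 0 := MKO_dg0 _ x fun w h3 => hx (hC x w h3.1).1
      omega
  have hgap : ∀ x ∈ X, ((q - dg (C \ R) x : ℕ) : ℝ) ≤ η / 16 * Fintype.card V := by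
    intro x hx
    have h1 := MKO_dg C R hRC x
    have h3 := hd2 x hx
    rw [Nat.cast_sub (hdeg x hx)]
    have h4 : (dg C x : ℝ) = dg (C \ R) x + dg R x := by exact_mod_cast h1
    linarith
  have hEC : EC (C \ R) q := hKON V (C \ R) A q (fun v w h => (hC v w h.1).2.2) hdeg'
  obtain ⟨c, hc, hcb⟩ := hBAV V (C \ R) q X hEC
  obtain ⟨π, hπ, hπc, hπx⟩ := hN1 V (C \ R) q c H hN1' hqN hc hH
  have hπs : ∀ i, i < q → π.symm i < q := by
    intro i hi
    rw [hπ]
    simpa using hi
  have hST : ∀ S T : Finset ℕ, (∀ i, i ∈ S ↔ i ∈ T) → (S.card : ℝ) = T.card := fun S T h => by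
    rw [Finset.ext h]
  refine ⟨fun e => π (c e), hπc, ?_, ?_, fun x => ?_⟩
  · intro i hi
    have h1 : mis (C \ R) (fun e => π (c e)) X i = mis (C \ R) c X (π.symm i) := by
      unfold mis
      congr 1
      ext x
      simp only [Finset.mem_filter, MKO_has]
    rw [h1]
    have h3 := hcb _ (hπs i hi)
    have h4 : ((q * mis (C \ R) c X (π.symm i) : ℕ) : ℝ) ≤
        ((∑ x ∈ X, (q - dg (C \ R) x) + 2 * q : ℕ) : ℝ) := by exact_mod_cast h3
    push_cast at h4
    have h5 : ∑ x ∈ X, ((q - dg (C \ R) x : ℕ) : ℝ) ≤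
        Fintype.card V * (η / 16 * Fintype.card V) := by
      refine (Finset.sum_le_sum hgap).trans ?_
      rw [Finset.sum_const, nsmul_eq_mul]
      have h6 : (X.card : ℝ) ≤ Fintype.card V := by exact_mod_cast Finset.card_le_univ X
      exact mul_le_mul_of_nonneg_right h6 (by positivity)
    have h7 : (q : ℝ) * mis (C \ R) c X (π.symm i) ≤ q * (η * Fintype.card V) := by
      have h8 : (Fintype.card V : ℝ) * (η / 16 * Fintype.card V) ≤ q * (η / 2 * Fintype.card V) := by
        have h9 : (Fintype.card V : ℝ) ≤ 8 * q := by linarith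
        have h10 : 0 ≤ η / 16 * Fintype.card V := by positivity
        nlinarith [mul_le_mul_of_nonneg_right h9 h10]
      have h11 : 2 * (q : ℝ) ≤ q * (η / 2 * Fintype.card V) := by nlinarith
      nlinarith
    exact le_of_mul_le_mul_left h7 hqpos
  · intro x hx
    have h1 := hSCN V (C \ R) q _ hπc x
    have h3 := Finset.card_filter_add_card_filter_not (s := Finset.range q)
      (fun i => has (C \ R) (fun e => π (c e)) x i)
    rw [h1, Finset.card_range] at h3
    have h4 : ((Finset.range q).filter fun i => ¬ has (C \ R) (fun e => π (c e)) x i).card =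
        q - dg (C \ R) x := by omega
    rw [h4]
    refine (hgap x hx).trans ?_
    nlinarith [hη, hNpos, mul_pos hη hNpos]
  · refine le_trans (le_of_eq (hST _ _ fun i => ?_)) (hπx x)
    simp only [Finset.mem_filter]

end

end Pool.Agent.OF
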