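import Pool.Agent.helper86.OF.SpecX

/-! Project of:, module WPH (helper70). -/

open scoped BigOperators

namespace Pool.Agent.OF

noncomputable section

open Classical

/-- the property of one step -/
def WPH_P {V : Type} (C : SimpleGraph V) (X : Finset V) (w : ℕ) (Dm E M : ℕ → V → V) (i : ℕ) :
    Prop :=
  ∃ m : V → V, (∀ v, m (m v) = v) ∧
    (∀ v, m v ≠ v → C.Adj v (m v) ∧ (∀ j < i, M j v ≠ m v) ∧ ∀ j < w, j ≠ i → Dm j v ≠ m v) ∧
    (∀ v, E i v ≠ v → m v = v) ∧ (∀ x ∈ X, E i x = x → m x ≠ x) ∧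
    ∀ v, M i v = if E i v ≠ v then E i v else m v

theorem WPH_inv {V : Type} {C : SimpleGraph V} {X : Finset V} {w : ℕ} {Dm E M : ℕ → V → V} {i : ℕ}
    (hE : ∀ v, E i (E i v) = v) (h : WPH_P C X w Dm E M i) : ∀ v, M i (M i v) = v := by
  obtain ⟨m, h1, h2, h3, h4, h5⟩ := h
  intro v
  by_cases hv : E i v = v
  · have e1 : M i v = m v := by rw [h5 v, if_neg (by simpa using hv)]
    rw [e1]
    have e2 : E i (m v) = m v := by
      by_contra h6
      have h7 := h3 (m v) h6
      rw [h1 v] at h7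
      exact h6 (by rw [← h7]; exact hv)
    rw [h5 (m v), if_neg (by simpa using e2), h1]
  · have e1 : M i v = E i v := by rw [h5 v, if_pos hv]
    rw [e1, h5 (E i v), if_pos, hE]
    rw [hE]
    exact fun h6 => hv h6.symm

theorem WPH_step (hHST : HST_stmt) {V : Type} [Fintype V] (W C : SimpleGraph V) (A X : Finset V)
    (w r : ℕ) (Dm E : ℕ → V → V) (ε : ℝ) (he : 0 < ε) (he1 : ε ≤ 1 / 100)
    (hw : (w : ℝ) ≤ ε * Fintype.card V)
    (hC : ∀ v v', C.Adj v v' → ¬ (v ∈ A ↔ v' ∈ A)) (hW : ∀ v v', W.Adj v v' → (v ∈ A ↔ v' ∈ A))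
    (hA : (A.card : ℝ) ≤ (1 / 2 + ε) * Fintype.card V)
    (hA' : (Aᶜ.card : ℝ) ≤ (1 / 2 + ε) * Fintype.card V)
    (hdeg : ∀ x ∈ X, (1 / 4 + 10 * ε) * Fintype.card V ≤ dg C x)
    (hD : Desg C A X w r (ε * Fintype.card V) Dm) (hE : ∀ i < w, MatIn W (E i))
    (hDE : ∀ i < w, ∀ v, Dm i v ≠ v → E i v = v)
    (hEc : ∀ i < w, ((Finset.univ.filter fun v => E i v ≠ v).card : ℝ) ≤ ε * Fintype.card V)
    (hEb : ∀ i < w, |(((X ∩ A).filter fun x => E i x ≠ x).card : ℝ) -
      ((X \ A).filter fun x => E i x ≠ x).card| + 1 ≤ r)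
    (hX : |((X ∩ A).card : ℝ) - (X \ A).card| ≤ 1) (M : ℕ → V → V) (n : ℕ) (hn : n < w)
    (hM : ∀ i < n, WPH_P C X w Dm E M i) :
    ∃ m : V → V, (∀ v, m (m v) = v) ∧
      (∀ v, m v ≠ v → C.Adj v (m v) ∧ (∀ j < n, M j v ≠ m v) ∧ ∀ j < w, j ≠ n → Dm j v ≠ m v) ∧
      (∀ v, E n v ≠ v → m v = v) ∧ (∀ x ∈ X, E n x = x → m x ≠ x) := by
  have hN : (0 : ℝ) ≤ Fintype.card V := Nat.cast_nonneg _
  have hMinv : ∀ j < n, ∀ v, M j (M j v) = v := fun j hj =>
    WPH_inv (hE j (hj.trans hn)).1 (hM j hj)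
  have hMD : ∀ j < n, ∀ v, Dm n v ≠ v → M j v ≠ Dm n v := by
    intro j hj v hv h6
    obtain ⟨m, h1, h2, h3, h4, h5⟩ := hM j hj
    by_cases h7 : E j v = v
    · have e1 : M j v = m v := by rw [h5 v, if_neg (by simpa using h7)]
      have h8 : m v ≠ v := by rw [← e1, h6]; exact hv
      exact (h2 v h8).2.2 n hn (by omega) (by rw [← e1, h6])
    · have e1 : M j v = E j v := by rw [h5 v, if_pos h7]
      have h8 := hW _ _ ((hE j (hj.trans hn)).2 v h7)
      have h9 := hC _ _ ((hD.mat n hn).2 v hv)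
      rw [← h6, e1] at h9
      exact h9 h8
  have hDinv : ∀ j < w, ∀ v, Dm j (Dm j v) = v := fun j hj => (hD.mat j hj).1
  set Cn : SimpleGraph V := remG (remG C M (Finset.range n)) Dm ((Finset.range w).erase n) with hCn
  have hCnadj : ∀ v v', Cn.Adj v v' ↔ (C.Adj v v' ∧ ∀ i ∈ Finset.range n, M i v ≠ v' ∧ M i v' ≠ v) ∧
      ∀ i ∈ (Finset.range w).erase n, Dm i v ≠ v' ∧ Dm i v' ≠ v := fun v v' => Iff.rfl
  set Hv : Finset V := X.filter fun x => ε * Fintype.card V ≤ dgs C Xᶜ x with hHv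
  have hmat : MatIn Cn (Dm n) := by
    refine ⟨hDinv n hn, fun v hv => ?_⟩
    rw [hCnadj]
    have hv' : Dm n (Dm n v) ≠ Dm n v := by
      rw [hDinv n hn]
      exact fun h => hv h.symm
    refine ⟨⟨(hD.mat n hn).2 v hv, fun i hi => ⟨hMD i (Finset.mem_range.1 hi) v hv, ?_⟩⟩,
      fun i hi => ⟨?_, ?_⟩⟩
    · have := hMD i (Finset.mem_range.1 hi) (Dm n v) hv'
      rwa [hDinv n hn] at this
    · rw [Finset.mem_erase, Finset.mem_range] at hi
      exact fun h => hD.dis n hn i hi.2 (Ne.symm hi.1) v hv h.symm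
    · rw [Finset.mem_erase, Finset.mem_range] at hi
      intro h
      have := hD.dis n hn i hi.2 (Ne.symm hi.1) (Dm n v) hv'
      rw [hDinv n hn] at this
      exact this h.symm
  have key : ∀ x ∈ X, E n x = x → (1 / 4 + 4 * ε) * Fintype.card V ≤ ((Finset.univ.filter fun b =>
      E n b = b ∧ Cn.Adj x b ∧ (b ∈ X ∨ x ∈ Hv ∨ b ∈ Hv ∨ Dm n x = b)).card : ℝ) := by
    intro x hx hEx
    set T : Finset V := if x ∈ Hv then ((Finset.range w).filter fun i => Dm i x ≠ x).image
      (fun j => Dm j x) else Xᶜ.filter (fun b => C.Adj x b) with hT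
    have hTc : (T.card : ℝ) ≤ ε * Fintype.card V := by
      by_cases hxH : x ∈ Hv
      · rw [hT, if_pos hxH]
        refine le_trans ?_ (hD.ld x)
        exact_mod_cast Finset.card_image_le
      · rw [hT, if_neg hxH]
        have h1 : ¬ ε * Fintype.card V ≤ dgs C Xᶜ x := by
          intro h2
          exact hxH (Finset.mem_filter.2 ⟨hx, h2⟩)
        exact (not_le.1 h1).le
    obtain ⟨F1, hF1⟩ : ∃ F1 : Finset V, F1 = Finset.univ.filter fun b =>
      E n b = b ∧ Cn.Adj x b ∧ (b ∈ X ∨ x ∈ Hv ∨ b ∈ Hv ∨ Dm n x = b) := ⟨_, rfl⟩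
    obtain ⟨F2, hF2⟩ : ∃ F2 : Finset V, F2 = Finset.univ.filter fun v => E n v ≠ v := ⟨_, rfl⟩
    rw [← hF1]
    have hsub : (Finset.univ.filter fun b => C.Adj x b) ⊆
        (F1 ∪ F2) ∪ ((Finset.range n).image (fun j => M j x) ∪ T) := by
      intro b hb
      have hb' : C.Adj x b := (Finset.mem_filter.1 hb).2
      by_contra hcon
      rw [Finset.mem_union, Finset.mem_union, Finset.mem_union] at hcon
      push Not at hcon
      obtain ⟨⟨c1, c2⟩, c3, c4⟩ := hcon
      have hEb : E n b = b := by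
        by_contra h
        exact c2 (hF2 ▸ Finset.mem_filter.2 ⟨Finset.mem_univ _, h⟩)
      have hMb : ∀ j < n, M j x ≠ b := by
        intro j hj h
        exact c3 (Finset.mem_image.2 ⟨j, Finset.mem_range.2 hj, h⟩)
      have hMb' : ∀ j < n, M j b ≠ x := by
        intro j hj h
        apply hMb j hj
        rw [← h, hMinv j hj]
      have hDb : ∀ j < w, j ≠ n → Dm j x ≠ b := by
        intro j hj hjn h
        by_cases hxH : x ∈ Hv
        · rw [hT, if_pos hxH] at c4
          apply c4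
          refine Finset.mem_image.2 ⟨j, Finset.mem_filter.2 ⟨Finset.mem_range.2 hj, ?_⟩, h⟩
          rw [h]
          exact hb'.ne'
        · rw [hT, if_neg hxH] at c4
          have hbX : b ∈ X := by
            by_contra hbX
            exact c4 (Finset.mem_filter.2 ⟨Finset.mem_compl.2 hbX, hb'⟩)
          have h1 : Dm j x ≠ x := by rw [h]; exact hb'.ne'
          have h2 := (hD.typ j hj x h1).1 hx
          rw [h] at h2
          exact h2 hbX
      have hDb' : ∀ j < w, j ≠ n → Dm j b ≠ x := by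
        intro j hj hjn h
        apply hDb j hj hjn
        rw [← h, hDinv j hj]
      apply c1
      rw [hF1]
      refine Finset.mem_filter.2 ⟨Finset.mem_univ _, hEb, ?_, ?_⟩
      · rw [hCnadj]
        refine ⟨⟨hb', fun i hi => ⟨hMb i (Finset.mem_range.1 hi), hMb' i (Finset.mem_range.1 hi)⟩⟩,
          fun i hi => ?_⟩
        rw [Finset.mem_erase, Finset.mem_range] at hi
        exact ⟨hDb i hi.2 hi.1, hDb' i hi.2 hi.1⟩
      · by_cases hxH : x ∈ Hv
        · exact Or.inr (Or.inl hxH)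
        · rw [hT, if_neg hxH] at c4
          left
          by_contra hbX
          exact c4 (Finset.mem_filter.2 ⟨Finset.mem_compl.2 hbX, hb'⟩)
    have hcard := Finset.card_le_card hsub
    have h1 := Finset.card_union_le (F1 ∪ F2) ((Finset.range n).image (fun j => M j x) ∪ T)
    have h2 := Finset.card_union_le F1 F2
    have h3 := Finset.card_union_le ((Finset.range n).image (fun j => M j x)) T
    have h4 : ((Finset.range n).image (fun j => M j x)).card ≤ n := by
      refine Finset.card_image_le.trans ?_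
      rw [Finset.card_range]
    have h5 := hEc n hn
    have h6 := hdeg x hx
    have h7 : dg C x = (Finset.univ.filter fun b => C.Adj x b).card := rfl
    rw [h7] at h6
    rw [← hF2] at h5
    have h8 : ((Finset.univ.filter fun b => C.Adj x b).card : ℝ) ≤
        F1.card + F2.card + (n + T.card) := by
      exact_mod_cast hcard.trans (h1.trans (by omega))
    have h9 : (n : ℝ) ≤ w := by exact_mod_cast hn.le
    have h10 : 0 ≤ ε * Fintype.card V := by positivity
    linarith
  have hbal : |(((X ∩ A).filter fun x => E n x = x).card : ℝ) -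
      ((X \ A).filter fun x => E n x = x).card| ≤ r := by
    have e1 := Finset.card_filter_add_card_filter_not (s := X ∩ A) (fun x => E n x = x)
    have e2 := Finset.card_filter_add_card_filter_not (s := X \ A) (fun x => E n x = x)
    have e3 : (((X ∩ A).filter fun x => E n x = x).card : ℝ) +
      ((X ∩ A).filter fun x => ¬ E n x = x).card = (X ∩ A).card := by exact_mod_cast e1
    have e4 : (((X \ A).filter fun x => E n x = x).card : ℝ) +
      ((X \ A).filter fun x => ¬ E n x = x).card = (X \ A).card := by exact_mod_cast e2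
    have h1 := hEb n hn
    have h2 := abs_le.1 hX
    have h3 : |(((X ∩ A).filter fun x => E n x ≠ x).card : ℝ) -
      ((X \ A).filter fun x => E n x ≠ x).card| ≤ r - 1 := by linarith
    have h4 := abs_le.1 h3
    rw [abs_le]
    constructor
    · linarith [h4.1, h4.2, h2.1, h2.2]
    · linarith [h4.1, h4.2, h2.1, h2.2]
  obtain ⟨m, m1, m2, m3, -⟩ := hHST V Cn A X Hv (Dm n) (E n) r ε he he1
    (fun v v' h => hC v v' ((hCnadj v v').1 h).1.1) hA hA' hmat (hD.typ n hn) (hD.cA n hn)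
    (hD.cB n hn) (hE n hn).1 (hDE n hn) key hbal
  refine ⟨m, m1.1, fun v hv => ?_, m2, m3⟩
  have h1 := (hCnadj _ _).1 (m1.2 v hv)
  exact ⟨h1.1.1, fun j hj => (h1.1.2 j (Finset.mem_range.2 hj)).1, fun j hj hjn =>
    (h1.2 j (Finset.mem_erase.2 ⟨hjn, Finset.mem_range.2 hj⟩)).1⟩

/-- WPH. The second phase. -/
theorem WPH (hHST : HST_stmt) : WPH_stmt := by
  intro V _ W C A X w r Dm E ε he he1 hw hC hW hA hA' hdeg hD hE hEd hDE hEc hEb hX
  have hall : ∀ n ≤ w, ∃ M : ℕ → V → V, ∀ i < n, WPH_P C X w Dm E M i := by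
    intro n
    induction n with
    | zero => exact fun _ => ⟨fun _ v => v, fun i hi => absurd hi (Nat.not_lt_zero _)⟩
    | succ n ih =>
      intro hn
      obtain ⟨M, hM⟩ := ih (by omega)
      obtain ⟨m, m1, m2, m3, m4⟩ := WPH_step hHST W C A X w r Dm E ε he he1 hw hC hW hA hA' hdeg hD hE
        hDE hEc hEb hX M n (by omega) hM
      refine ⟨Function.update M n fun v => if E n v ≠ v then E n v else m v, fun i hi => ?_⟩
      rcases Nat.lt_succ_iff_lt_or_eq.1 hi with h1 | h1
      · obtain ⟨m', a1, a2, a3, a4, a5⟩ := hM i h1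
        refine ⟨m', a1, fun v hv => ⟨(a2 v hv).1, fun j hj => ?_, (a2 v hv).2.2⟩, a3, a4, fun v => ?_⟩
        · rw [Function.update_of_ne (by omega)]
          exact (a2 v hv).2.1 j hj
        · rw [Function.update_of_ne (by omega)]
          exact a5 v
      · subst h1
        refine ⟨m, m1, fun v hv => ⟨(m2 v hv).1, fun j hj => ?_, (m2 v hv).2.2⟩, m3, m4, fun v => ?_⟩
        · rw [Function.update_of_ne (by omega)]
          exact (m2 v hv).2.1 j hj
        · rw [Function.update_self]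
  obtain ⟨M, hM⟩ := hall w le_rfl
  have hMv : ∀ i < w, ∀ v, E i v ≠ v → M i v = E i v := by
    intro i hi v hv
    obtain ⟨m, a1, a2, a3, a4, a5⟩ := hM i hi
    rw [a5 v, if_pos hv]
  have hdis : ∀ i < w, ∀ j < w, j < i → ∀ v, M i v ≠ v → M i v ≠ M j v := by
    intro i hi j hj hji v hv hcon
    obtain ⟨m, a1, a2, a3, a4, a5⟩ := hM i hi
    obtain ⟨m', b1, b2, b3, b4, b5⟩ := hM j hj
    by_cases h1 : E i v = v
    · have e1 : M i v = m v := by rw [a5 v, if_neg (by simpa using h1)]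
      rw [e1] at hv hcon
      exact (a2 v hv).2.1 j hji hcon.symm
    · have e1 : M i v = E i v := by rw [a5 v, if_pos h1]
      by_cases h2 : E j v = v
      · have e2 : M j v = m' v := by rw [b5 v, if_neg (by simpa using h2)]
        have h3 : m' v ≠ v := by rw [← e2, ← hcon]; exact hv
        have h4 := hC _ _ (b2 v h3).1
        have h5 := hW _ _ ((hE i hi).2 v h1)
        rw [← e1, hcon, e2] at h5
        exact h4 h5
      · have e2 : M j v = E j v := by rw [b5 v, if_pos h2]
        exact hEd i hi j hj (by omega) v h1 (by rw [← e1, ← e2]; exact hcon)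
  refine ⟨M, fun i hi => ⟨WPH_inv (hE i hi).1 (hM i hi), fun v hv => ?_⟩, hMv, fun i hi x hx => ?_,
    fun i hi j hj hij v hv => ?_⟩
  · obtain ⟨m, a1, a2, a3, a4, a5⟩ := hM i hi
    by_cases h1 : E i v = v
    · have e1 : M i v = m v := by rw [a5 v, if_neg (by simpa using h1)]
      rw [e1] at hv ⊢
      exact Or.inr (a2 v hv).1
    · rw [hMv i hi v h1]
      exact Or.inl ((hE i hi).2 v h1)
  · obtain ⟨m, a1, a2, a3, a4, a5⟩ := hM i hi
    by_cases h1 : E i x = x
    · rw [a5 x, if_neg (by simpa using h1)]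
      exact a4 x hx h1
    · rw [hMv i hi x h1]
      exact h1
  · rcases lt_or_gt_of_ne hij with h1 | h1
    · intro hcon
      have h2 : M j v ≠ v := by rw [← hcon]; exact hv
      exact hdis j hj i hi h1 v h2 hcon.symm
    · exact hdis i hi j hj h1 v hv

end

end Pool.Agent.OF
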